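import Mathlib
import Pool.Agent.N665.LP.Lead

/-!
# MP_cbe134_nt: relations in the depth graded space, patterns in many variables, exponential height

A pattern in `k` variables is a list of letters `b + u_1 s_1 + ... + u_k s_k`; at a tuple `s` of natural numbers it gives an
index. The first letters may be constant, as in `ζ(5, 1, s_1, 3, s_1 + s_2)`. Let `Λ` be a finite set of admissible patterns
of the same weight and of depth at most `r`. We consider the relations `∑ c_w ζ(w(s)) = 0`, `w ∈ Λ`, with integers `c_w` of
absolute value at most `C ^ N`, that is, the relations of exponential height between the classes of the values of depth `r` in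
`Fil_r / Fil_{r - 1}` (where the values of smaller depth are from `Λ`).

1. For all but `K N ^ (k - 1)` of the tuples `s ∈ [N, κ N] ^ k` the part of depth `r` of EVERY such relation is a
combination of shuffles `u ⧢ v` of constant indices `u` (initial segments of the constant letters of patterns of depth `r`)
and patterns `v` whose first letter is not constant, with integral coefficients `ρ(u, v)` such that for every `v` the number
`∑_u ρ(u, v) ζ(u)` of depth `r - |v|` is in the span of the values of the same weight and of smaller depth. So the relation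
comes from relations in the depth graded algebra between constant values. Here `K` does not depend on `C`.

2. Conversely the value of each such combination of shuffles, at all tuples `s`, `s_j ≥ 2`, is in the span of the values of
the same weight and of depth less than `r`.

3. If the patterns of depth `r` have at most one constant letter in front, then such a combination is zero: `c_w = 0` for all
`w` of depth `r`.

The starting file LeadingParts has one variable and coefficients of bounded height, without the converse; ExceptionalTuples on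
page MP_154526_nt concerns relations without depth: a consequence of the relations of the fronts. Proof: the elimination
theorem `few` of `Pool.Agent.X90.DC` (starting library) for the polynomial relation `∑ ρ(u, v) X_u Y_v` between the constants
`ζ(u)` and the values `ζ(v(s))`; every pattern is a combination of stuffle products `u * v`
(`Pool.Agent.N665.LP.exists_coeff`), and the truncated sums at lists of complex numbers are linearly independent functions
with the stuffle product (`Pool.Agent.N665.LP.Zt_indep`); so `∑_u ρ(u, v) ζ(u) = 0`, with all `u`, for every `v`.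
-/

set_option autoImplicit false

namespace Pool.Agent.Results.MP_cbe134_nt.ManyVariables

/-- `trunc [s_1, ..., s_r] m` is the sum of `∏ k_i ^ (-s_i)` over `m > k_1 > ... > k_r ≥ 1` -/
noncomputable def trunc : List ℕ → ℕ → ℝ
  | [], _ => 1
  | s :: l, m => ∑ j ∈ Finset.Ico 1 m, trunc l j / (j : ℝ) ^ s

/-- the multiple zeta value `ζ(s_1, ..., s_r)`, `s_1` belongs to the largest variable -/
noncomputable def mzv : List ℕ → ℝ
  | [] => 1
  | s :: l => ∑' k : ℕ, trunc l (k + 1) / ((k + 1 : ℕ) : ℝ) ^ s

/-- admissible indices: all entries are at least one, the first one is at least two; the empty index is admissible -/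
def AdmissibleIndex (l : List ℕ) : Prop := (∀ a ∈ l, 1 ≤ a) ∧ ∀ a t, l = a :: t → 2 ≤ a

/-- the span of the multiple zeta values of weight `n` and of depth smaller than `d` -/
noncomputable def LowerDepth (d n : ℕ) : Submodule ℚ ℝ :=
  Submodule.span ℚ {x | ∃ l : List ℕ, AdmissibleIndex l ∧ l.sum = n ∧ l.length < d ∧ x = mzv l}

/-- the letter `(b, u)` stands for `b + ∑ u_j s_j` -/
abbrev Letter (k : ℕ) : Type := ℕ × (Fin k → ℕ)

/-- the index given by a pattern at the tuple `s` -/
def index {k : ℕ} (s : Fin k → ℕ) (w : List (Letter k)) : List ℕ :=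
  w.map fun u => u.1 + ∑ j, u.2 j * s j

/-- constant letters are positive, and the first letter is at least two if it is constant -/
def AdmissiblePattern {k : ℕ} (w : List (Letter k)) : Prop :=
  (∀ u ∈ w.head?, u.2 ≠ 0 ∨ 2 ≤ u.1) ∧ ∀ u ∈ w, u.2 ≠ 0 ∨ 1 ≤ u.1

/-- the pattern is empty or its first letter is not constant -/
def Growing {k : ℕ} (w : List (Letter k)) : Prop := ∀ u ∈ w.head?, u.2 ≠ 0

open Classical in
/-- the constant letters in front of the first letter which is not constant -/
def constantPart {k : ℕ} : List (Letter k) → List ℕ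
  | [] => []
  | u :: w => if u.2 = 0 then u.1 :: constantPart w else []

/-- a constant index as a pattern -/
def fixed {k : ℕ} (p : List ℕ) : List (Letter k) := p.map fun b => (b, 0)

/-- the shuffles of two lists, as a list (with multiplicities) -/
def shuffles {α : Type} : List α → List α → List (List α)
  | [], v => [v]
  | x :: u, [] => [x :: u]
  | x :: u, y :: v => (shuffles u (y :: v)).map (x :: ·) ++ (shuffles (x :: u) v).map (y :: ·)
termination_by u v => u.length + v.length

/-- The part of depth `r` of the combination `∑ c_w w` is `∑ ρ(u, v) (u ⧢ v)`, the sum over the pairs `(u, v)` in a finite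
set `Q`, where `u` is an admissible constant index, an initial segment of the constant letters of a pattern of depth `r` in
`Λ`, where `v` is an admissible growing pattern, and the total weight is `S` and the total depth is `r`; and for every `v` the
number `∑_u ρ(u, v) ζ(u)`, a combination of values of depth `r - |v|`, is in the span of the values of the same weight and of
smaller depth. -/
def Splits {k : ℕ} (Λ : Finset (List (Letter k))) (r : ℕ) (S : Letter k) (c : List (Letter k) → ℤ) : Prop :=
  ∃ (Q : Finset (List ℕ × List (Letter k))) (ρ : List ℕ × List (Letter k) → ℤ),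
    (∀ p ∈ Q, AdmissibleIndex p.1 ∧ Growing p.2 ∧ AdmissiblePattern p.2 ∧ (fixed p.1).sum + p.2.sum = S ∧
      p.1.length + p.2.length = r ∧ ∃ w ∈ Λ, w.length = r ∧ p.1 <+: constantPart w) ∧
    (∀ w : List (Letter k), w.length = r → c w = ∑ p ∈ Q, ρ p * ((shuffles (fixed p.1) p.2).count w : ℤ)) ∧
    ∀ v, ∑ p ∈ Q with p.2 = v, (ρ p : ℝ) * mzv p.1 ∈ LowerDepth (r - v.length) (S.1 - v.sum.1)

/-- the tuples in `[N, κ N] ^ k` at which some relation `∑ c_w ζ(w(s)) = 0`, `w ∈ Λ`, with integers `c_w` of absolute value at
most `H` has a part of depth `r` that does not split -/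
def exceptional {k : ℕ} (Λ : Finset (List (Letter k))) (r : ℕ) (S : Letter k) (κ N : ℕ) (H : ℝ) : Set (Fin k → ℕ) :=
  {s | (∀ j, N ≤ s j ∧ s j ≤ κ * N) ∧ ∃ c : List (Letter k) → ℤ, (∀ w, w ∉ Λ → c w = 0) ∧
    (∀ w ∈ Λ, |(c w : ℝ)| ≤ H) ∧ ∑ w ∈ Λ, (c w : ℝ) * mzv (index s w) = 0 ∧ ¬ Splits Λ r S c}

open Pool.Agent.N665.LP Pool.Agent.X90.DC

theorem trunc_eq : ∀ l m, trunc l m = Pool.Agent.Y760.ZG.hr l m := by
  intro l
  induction l with
  | nil => intro m; rw [trunc, Pool.Agent.Y760.ZG.hr]
  | cons s l ih =>
    intro m
    rw [trunc, Pool.Agent.Y760.ZG.hr]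
    exact Finset.sum_congr rfl fun j _ => by rw [ih]

theorem mzv_eq : mzv = Pool.Agent.Y760.ZG.mz := by
  funext l
  cases l with
  | nil => rw [mzv, Pool.Agent.Y760.ZG.mz]
  | cons s l =>
    rw [mzv, Pool.Agent.Y760.ZG.mz]
    exact tsum_congr fun k => by rw [trunc_eq]

theorem shuffles_eq {k : ℕ} : ∀ u v : List (Letter k), shuffles u v = shf u v := by
  intro u v
  induction u, v using shf.induct with
  | case1 v => rw [shuffles, shf]
  | case2 x u => rw [shuffles, shf]
  | case3 x u y v ih1 ih2 => rw [shuffles, shf, ih1, ih2]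

theorem constantPart_eq {k : ℕ} : ∀ w : List (Letter k), constantPart w = fpx w := by
  intro w
  induction w with
  | nil => rw [constantPart, fpx]
  | cons u w ih => rw [constantPart, fpx, ih]

theorem ld_eq (d n : ℕ) : LowerDepth d n = LD d n := by
  rw [LowerDepth, LD, mzv_eq]
  rfl

theorem splits_iff {k : ℕ} (Λ : Finset (List (Letter k))) (r : ℕ) (S : Letter k) (c : List (Letter k) → ℤ) :
    Splits Λ r S c ↔ Spl Λ r S c := by
  constructor
  · rintro ⟨Q, ρ, h1, h2, h3⟩
    refine ⟨Q, ρ, fun p hp => ?_, fun w hw => ?_, fun v => ?_⟩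
    · obtain ⟨a1, a2, a3, a4, a5, w, hw, a6, a7⟩ := h1 p hp
      exact ⟨a1, ⟨a2, a3.2⟩, a4, a5, w, hw, a6, by rw [← constantPart_eq]; exact a7⟩
    · rw [h2 w hw]
      refine Finset.sum_congr rfl fun p _ => ?_
      rw [shuffles_eq]
      rfl
    · rw [← ld_eq, ← mzv_eq]
      exact h3 v
  · rintro ⟨Q, ρ, h1, h2, h3⟩
    refine ⟨Q, ρ, fun p hp => ?_, fun w hw => ?_, fun v => ?_⟩
    · obtain ⟨a1, a2, a4, a5, w, hw, a6, a7⟩ := h1 p hp
      exact ⟨a1, a2.1, ⟨fun u hu => Or.inl (a2.1 u hu), a2.2⟩, a4, a5, w, hw, a6, by
        rw [constantPart_eq]; exact a7⟩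
    · rw [h2 w hw]
      refine Finset.sum_congr rfl fun p _ => ?_
      rw [shuffles_eq]
      rfl
    · rw [ld_eq, mzv_eq]
      exact h3 v

/-- **Theorem.** Let `Λ` be a finite set of admissible patterns in `k` variables of the same weight `S` and of depth at most
`r`.

1. For every `κ` there is `K` such that for all real `C` and all large `N`, for all but at most `K N ^ (k - 1)` of the tuples
`s` of integers `N ≤ s_j ≤ κ N`, the part of depth `r` of every relation `∑ c_w ζ(w(s)) = 0`, `w ∈ Λ`, with integers
`|c_w| ≤ C ^ N` splits (see `Splits`).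

2. If the part of depth `r` of `∑ c_w w` splits, then for all tuples `s` with `s_j ≥ 2` the number `∑ c_w ζ(w(s))`, the sum over
the `w` of depth `r`, is in the span of the values of the same weight and of depth less than `r`.

3. If the patterns of depth `r` in `Λ` have at most one constant letter in front, then only `c` with `c_w = 0` for all `w` of
depth `r` split. -/
theorem result {k : ℕ} (r : ℕ) (S : Letter k) (Λ : Finset (List (Letter k))) (hΛ : ∀ w ∈ Λ, AdmissiblePattern w)
    (hr : ∀ w ∈ Λ, w.length ≤ r) (hS : ∀ w ∈ Λ, w.sum = S) :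
    (∀ κ : ℕ, ∃ K : ℕ, ∀ C : ℝ, ∃ N₀ : ℕ, ∀ N : ℕ, N₀ ≤ N →
      (exceptional Λ r S κ N (C ^ N)).ncard ≤ K * N ^ (k - 1)) ∧
    (∀ c : List (Letter k) → ℤ, (∀ w, w ∉ Λ → c w = 0) → Splits Λ r S c → ∀ s : Fin k → ℕ, (∀ j, 2 ≤ s j) →
      ∑ w ∈ Λ with w.length = r, (c w : ℝ) * mzv (index s w) ∈ LowerDepth r (S.1 + ∑ j, S.2 j * s j)) ∧
    ((∀ w ∈ Λ, w.length = r → (constantPart w).length ≤ 1) → ∀ c : List (Letter k) → ℤ, Splits Λ r S c →
      ∀ w, w.length = r → c w = 0) := by
  classical
  refine ⟨fun κ => ?_, fun c hc0 hc s hs => ?_, fun h1 c hc w hw => ?_⟩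
  · obtain ⟨K, hK⟩ := lead r S Λ hΛ hr hS κ
    refine ⟨K, fun C => ?_⟩
    obtain ⟨N₀, hN₀⟩ := hK C
    refine ⟨N₀, fun N hN => ?_⟩
    have hfin : (exceptional Λ r S κ N (C ^ N)).Finite := by
      refine (Set.Finite.pi' (t := fun _ : Fin k => Set.Icc N (κ * N)) fun _ => Set.finite_Icc _ _).subset ?_
      intro s hs j
      exact ⟨(hs.1 j).1, (hs.1 j).2⟩
    rw [Set.ncard_eq_toFinset_card _ hfin]
    refine hN₀ N hN _ fun s hs => ?_
    rw [Set.Finite.mem_toFinset] at hs
    obtain ⟨h1, c, h2, h3, h4, h5⟩ := hs
    refine ⟨h1, c, h2, h3, ?_, fun h => h5 ((splits_iff Λ r S c).2 h)⟩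
    rw [mzv_eq] at h4
    exact h4
  · rw [ld_eq, mzv_eq]
    exact conv r S Λ c hc0 ((splits_iff Λ r S c).1 hc) s hs
  · exact one r S Λ (fun w hw hwr => by rw [← constantPart_eq]; exact h1 w hw hwr) c
      ((splits_iff Λ r S c).1 hc) w hw

end Pool.Agent.Results.MP_cbe134_nt.ManyVariables
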