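import Pool.Agent.N84.MD.F
import Pool.Agent.Results.MP_cbe134_nt.ManyVariables

/-!
# MP_cbe134_nt: the depth graded space at the indices near the dilates of almost every real vector

A pattern in `k` variables is a list of letters `b + u_1 s_1 + ... + u_k s_k`; at a tuple `s` of natural numbers it gives an
index. The first letters may be constant. Let `Λ` be a finite set of admissible patterns of the same weight and of depth at
most `r`. We consider the relations `∑ c_w ζ(w(s)) = 0`, `w ∈ Λ`, with integers `c_w` of absolute value at most `C ^ N`: the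
relations of exponential height between the classes of the values of depth `r` in `Fil_r / Fil_{r - 1}`.

We prove: for all real vectors `ξ` with positive coordinates, up to a set of Hausdorff dimension less than `k`, for ALL large
`N` in a sparse set `M` of integers (for instance the squares, or the powers of `2`) and ALL the tuples `s` of integers near
`N ξ`, `|s_j - N ξ_j| ≤ N ^ (1 - τ)`, for instance `s_j = [N ξ_j]` (`τ = 1`; for some smaller `τ` also, so that there are many
such tuples), every such relation splits: its part of depth `r` is a combination `∑ ρ(u, v) (u ⧢ v)` of shuffles of constant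
indices `u` and patterns `v` whose first letter is not constant, where for every `v` the number `∑_u ρ(u, v) ζ(u)` is in the
span of the values of the same weight and of smaller depth. If the patterns of depth `r` have at most one constant letter in
front then `c_w = 0` for all `w` of depth `r` (part 3 of `ManyVariables`).

The theorem `ManyVariables` of this page bounds the number of the exceptional tuples in `[N, κ N] ^ k` by `K N ^ (k - 1)`,
which does not exclude that there are exceptional tuples near all the points `N ξ`. Here the size of the exceptional set of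
the `ξ` is estimated, by the Hausdorff-Cantelli lemma (`Pool.Agent.N84.MD`, helper84).
-/

set_option autoImplicit false

open Set Filter MeasureTheory
open scoped ENNReal

namespace Pool.Agent.Results.MP_cbe134_nt.AlongRealTuples

open Pool.Agent.Results.MP_cbe134_nt.ManyVariables (mzv Letter index AdmissiblePattern Splits exceptional constantPart)

/-- Every relation between the multiple zeta values of the patterns `w ∈ Λ` at the tuple `s` with integers `c_w` of absolute
value at most `H` splits; and `c_w = 0` for all `w` of depth `r` if the patterns of depth `r` have at most one constant letter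
in front. -/
def AllSplit {k : ℕ} (Λ : Finset (List (Letter k))) (r : ℕ) (S : Letter k) (H : ℝ) (s : Fin k → ℕ) : Prop :=
  ∀ c : List (Letter k) → ℤ, (∀ w, w ∉ Λ → c w = 0) → (∀ w ∈ Λ, |(c w : ℝ)| ≤ H) →
    ∑ w ∈ Λ, (c w : ℝ) * mzv (index s w) = 0 → Splits Λ r S c ∧
      ((∀ w ∈ Λ, w.length = r → (constantPart w).length ≤ 1) → ∀ w, w.length = r → c w = 0)

/-- For all large `N` in `M` and all tuples `s` of natural numbers with `|ξ_j - s_j / N| ≤ N ^ (-τ)` the relations at `s` with
coefficients at most `C ^ N` split. -/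
def AllNearDilates {k : ℕ} (Λ : Finset (List (Letter k))) (r : ℕ) (S : Letter k) (C : ℝ) (M : Set ℕ) (τ : ℝ)
    (ξ : Fin k → ℝ) : Prop :=
  ∀ᶠ N : ℕ in atTop, N ∈ M → ∀ s : Fin k → ℕ, (∀ j, |ξ j - s j / N| ≤ (N : ℝ) ^ (-τ)) → AllSplit Λ r S (C ^ N) s

/-- Let `Λ` be a finite set of admissible patterns in `k ≥ 1` variables of the same weight `S` and of depth at most `r`, and
`C` a real number. Let `M` be a set of integers such that the sum of the `N ^ (-σ)`, `N ∈ M`, converges, and `τ > 0`. Then
`AllNearDilates` holds for all real vectors `ξ` with positive coordinates but a set of Hausdorff dimension at most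
`(k - 1 + σ) / τ`; if `k - 1 + σ < τ k` it holds for almost all of them. (For the squares one can take any `σ > 1 / 2`, for
the powers of `2` any `σ > 0`, and then `τ = 1`, or even somewhat smaller.) -/
theorem result {k : ℕ} (hk : 1 ≤ k) (r : ℕ) (S : Letter k) (Λ : Finset (List (Letter k)))
    (hΛ : ∀ w ∈ Λ, AdmissiblePattern w) (hr : ∀ w ∈ Λ, w.length ≤ r) (hS : ∀ w ∈ Λ, w.sum = S)
    (C : ℝ) (M : Set ℕ) (σ τ : ℝ) (hσ : 0 < σ) (hτ : 0 < τ)
    (hM : Summable fun N : M => ((N : ℕ) : ℝ) ^ (-σ)) :
    dimH {ξ : Fin k → ℝ | (∀ j, 0 < ξ j) ∧ ¬ AllNearDilates Λ r S C M τ ξ} ≤ ENNReal.ofReal (((k : ℝ) - 1 + σ) / τ) ∧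
    ((k : ℝ) - 1 + σ < τ * k → ∀ᵐ ξ : Fin k → ℝ, (∀ j, 0 < ξ j) → AllNearDilates Λ r S C M τ ξ) := by
  have hk1 : (1 : ℝ) ≤ k := by exact_mod_cast hk
  have hs : 0 ≤ (k : ℝ) - 1 := by linarith
  obtain ⟨hfew, -, hone⟩ := ManyVariables.result r S Λ hΛ hr hS
  have hbad : ∀ κ : ℕ, 1 ≤ κ → ∃ (C' : ℝ) (N₀ : ℕ), ∀ N : ℕ, N₀ ≤ N →
      ({s : Fin k → ℕ | (∀ j, N ≤ κ * s j ∧ s j ≤ κ * N) ∧
        s ∈ {s : Fin k → ℕ | ¬ AllSplit Λ r S (C ^ N) s}}.ncard : ℝ) ≤ C' * (N : ℝ) ^ ((k : ℝ) - 1) := by
    intro κ hκ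
    obtain ⟨K, hK⟩ := hfew (2 * κ ^ 2)
    obtain ⟨N₀, hN₀⟩ := hK ((max |C| 1) ^ (2 * κ))
    refine ⟨K, κ * (N₀ + 1), fun N hN => ?_⟩
    obtain ⟨N', hN'⟩ : ∃ N', N' = N / κ := ⟨_, rfl⟩
    have h1 : N₀ + 1 ≤ N' := by
      rw [hN', Nat.le_div_iff_mul_le (by omega), mul_comm]
      exact hN
    have h2 : κ * N' ≤ N := by
      rw [hN']
      exact Nat.mul_div_le N κ
    have h3 : N ≤ 2 * κ * N' := by
      have h4 : N < κ * (N' + 1) := by
        rw [hN']
        have := Nat.div_add_mod N κ
        have := Nat.mod_lt N (show 0 < κ by omega)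
        nlinarith
      nlinarith
    have hsub : {s : Fin k → ℕ | (∀ j, N ≤ κ * s j ∧ s j ≤ κ * N) ∧
        s ∈ {s : Fin k → ℕ | ¬ AllSplit Λ r S (C ^ N) s}} ⊆
        exceptional Λ r S (2 * κ ^ 2) N' (((max |C| 1) ^ (2 * κ)) ^ N') := by
      rintro s ⟨hs1, hs2⟩
      rw [Set.mem_ofPred_eq] at hs2
      unfold AllSplit at hs2
      push Not at hs2
      obtain ⟨c, hP1, hP2, hP3, hP4⟩ := hs2
      refine ⟨fun j => ⟨?_, ?_⟩, c, hP1, fun m hm => (hP2 m hm).trans ?_, hP3, fun hP => ?_⟩
      · have := (hs1 j).1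
        exact Nat.le_of_mul_le_mul_left (h2.trans this) (by omega)
      · refine (hs1 j).2.trans ?_
        calc κ * N ≤ κ * (2 * κ * N') := Nat.mul_le_mul_left κ h3
          _ = 2 * κ ^ 2 * N' := by ring
      · have h5 : (1 : ℝ) ≤ max |C| 1 := le_max_right _ _
        calc C ^ N ≤ |C ^ N| := le_abs_self _
          _ = |C| ^ N := abs_pow C N
          _ ≤ (max |C| 1) ^ N := pow_le_pow_left₀ (abs_nonneg C) (le_max_left _ _) N
          _ ≤ (max |C| 1) ^ (2 * κ * N') := pow_le_pow_right₀ h5 h3
          _ = _ := pow_mul _ _ _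
      · obtain ⟨h6, w, hw, hcw⟩ := hP4 hP
        exact hcw (hone h6 c hP w hw)
    have hfin : (exceptional Λ r S (2 * κ ^ 2) N' (((max |C| 1) ^ (2 * κ)) ^ N')).Finite := by
      refine (Set.Finite.pi (fun _ : Fin k => Set.finite_Iic (2 * κ ^ 2 * N'))).subset ?_
      intro s hs j _
      exact (hs.1 j).2
    have h6 := (Set.ncard_le_ncard hsub hfin).trans (hN₀ N' (by omega))
    have h7 : N' ≤ N := by
      rw [hN']
      exact Nat.div_le_self N κ
    have h8 : {s : Fin k → ℕ | (∀ j, N ≤ κ * s j ∧ s j ≤ κ * N) ∧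
        s ∈ {s : Fin k → ℕ | ¬ AllSplit Λ r S (C ^ N) s}}.ncard ≤ K * N ^ (k - 1) :=
      h6.trans (Nat.mul_le_mul_left K (Nat.pow_le_pow_left h7 _))
    have h9 : (N : ℝ) ^ ((k : ℝ) - 1) = (N : ℝ) ^ (k - 1) := by
      rw [← Real.rpow_natCast, Nat.cast_sub hk, Nat.cast_one]
    rw [h9]
    exact_mod_cast h8
  refine ⟨?_, fun hlt => ?_⟩
  · have := Pool.Agent.N84.MD.boxes (fun N => {s : Fin k → ℕ | ¬ AllSplit Λ r S (C ^ N) s}) hs hσ hτ hbad M hM
    simpa only [AllNearDilates, Set.mem_ofPred_eq, not_not] using this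
  · have := Pool.Agent.N84.MD.boxes_ae (fun N => {s : Fin k → ℕ | ¬ AllSplit Λ r S (C ^ N) s}) hs hσ hτ hbad M hM hlt
    simpa only [AllNearDilates, Set.mem_ofPred_eq, not_not] using this

end Pool.Agent.Results.MP_cbe134_nt.AlongRealTuples
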