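import Pool.Agent.N568.BK.Fin

/-!
# MP_cbe134_nt: the number of the generators in every depth

The depth graded Lie algebra of motivic multiple zeta values consists of polynomials, the part of depth `r` of polynomials in
`r` variables, with the (linearized) Ihara bracket `{f, g} = f ∘ g - g ∘ f`. It contains the depth one elements `f_b = x^(2b)`,
`b ≥ 1` (of weight `2b + 1`), dual to the zeta values `ζ(2b + 1)`. Let `L` be the Lie algebra generated by the `f_b`; its part
`L_(r,n)` of depth `r` and weight `2 n + r` is spanned by the iterated brackets `{f_(b_1), {f_(b_2), …, f_(b_r)}…}` with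
`b_1 + … + b_r = n`. In depth two and three the dimension of `L_(r,n)` is known (Ihara, Takao, Schneps, Goncharov).

**Theorem.** For every `r ≥ 2` the dimension of `L_(r,n)` is at least
`(2 ⌊n / (2 r + 2)⌋ + 3 - 2^(r+1))^(r-1) / (2^(r(r-1)/2) (r-1)!)`, hence at least `c_r n^(r-1)` for large `n`, `c_r > 0`. Up to
the constant this is the size predicted by the Broadhurst-Kreimer conjecture, and it is the trivial upper bound, since there
are only `binom(n-1, r-1)` brackets.

So (Brown) in every depth `r` and all large weights `N ≡ r mod 2` at least `c_r N^(r-1)` motivic multiple zeta values of weight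
`N` and depth `r` are linearly independent modulo smaller depth, products and `ζ(2)`: the number of the algebra generators in
every depth has the conjectured order. (Products of the zeta values `ζ(2b+1)` only give such a bound for the whole algebra.)

Proof. Let `b_r` be large. Then `{f_(b_1), {…, f_(b_r)}…}` is the sum of `ℓ^(2 b_r) R_ℓ` over the linear forms `x_i`, `x_i - x_j`
with polynomials `R_ℓ` of degree `2 (b_1 + … + b_(r-1))`. Large powers of linear forms are linearly independent over the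
polynomials of small degree. So it is enough to consider the factors `R_ℓ` for the last variable `ℓ = x_r`. Their coefficients
satisfy a recursion, and for superincreasing `(b_1, …, b_(r-1))` a matrix of such coefficients is triangular.

The variables are numbered from the right: `y_0 = x_r`, …, `y_(r-1) = x_1`.
-/

set_option autoImplicit false

namespace Pool.Agent.Results.MP_cbe134_nt.GeneratorsInEveryDepth

open Finset

/-- the variable `y_j` is dropped -/
def omit' (j : ℕ) (y : ℕ → ℚ) : ℕ → ℚ := fun i => if i < j then y i else y (i + 1)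

/-- The linearized Ihara action `f ∘ g` for `f = x^(2b)` and a polynomial `g` in `y_0, …, y_(s-1)`. -/
def circ (s b : ℕ) (g : (ℕ → ℚ) → ℚ) (y : ℕ → ℚ) : ℚ :=
  y s ^ (2 * b) * g y +
    ∑ j ∈ range s, (y j - y (j + 1)) ^ (2 * b) * (g (omit' j y) - g (omit' (j + 1) y))

/-- The action `g ∘ f` for `f = x^(2b)` and a polynomial `g` of even degree in `y_0, …, y_(s-1)`. -/
def circ' (s b : ℕ) (g : (ℕ → ℚ) → ℚ) (y : ℕ → ℚ) : ℚ :=
  y 0 ^ (2 * b) * g (fun i => y (i + 1)) + y s ^ (2 * b) * g (fun i => y i - y s) +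
    (-1) ^ s * y 0 ^ (2 * b) * g (fun i => y (s - i) - y 0)

/-- The iterated bracket `{f_(b_1), {f_(b_2), …, f_(b_r)}…}` of `f_b = x^(2b)`, `{f, g} = f ∘ g - g ∘ f`. -/
def bracket : List ℕ → (ℕ → ℚ) → ℚ
  | [], _ => 0
  | [b], y => y 0 ^ (2 * b)
  | b :: b' :: u, y => circ (b' :: u).length b (bracket (b' :: u)) y -
      circ' (b' :: u).length b (bracket (b' :: u)) y

/-- `L_(r,n)`: the space spanned by the iterated brackets of depth `r` and weight `2 n + r` -/
def L (r n : ℕ) : Submodule ℚ ((ℕ → ℚ) → ℚ) :=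
  Submodule.span ℚ {g | ∃ b : List ℕ, b.length = r ∧ b.sum = n ∧ (∀ x ∈ b, 1 ≤ x) ∧ g = bracket b}

lemma circ_eq (s b : ℕ) (g : (ℕ → ℚ) → ℚ) (y : ℕ → ℚ) :
    circ s b g y = Pool.Agent.N568.BK.comp s b g y := rfl

lemma circ'_eq (s b : ℕ) (g : (ℕ → ℚ) → ℚ) (y : ℕ → ℚ) : circ' s b g y =
    y 0 ^ (2 * b) * g (Pool.Agent.N568.BK.om 0 y) + y s ^ (2 * b) * g (Pool.Agent.N568.BK.dl s y) +
    (-1) ^ s * y 0 ^ (2 * b) * g (Pool.Agent.N568.BK.dr s y) := by
  rw [Pool.Agent.N568.BK.om_zero]
  rfl

lemma bracket_eq : ∀ b : List ℕ, bracket b = Pool.Agent.N568.BK.brk b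
  | [] => rfl
  | [b] => rfl
  | b :: b' :: u => by
      funext y
      unfold bracket Pool.Agent.N568.BK.brk Pool.Agent.N568.BK.br
      rw [bracket_eq (b' :: u), circ_eq, circ'_eq]

/-- **The number of the generators in every depth.** For all `r ≥ 2` and all `n`:
(1) Let `B ≤ n` and `r (2 (n - B) + 1) < 2 B`. The iterated brackets for the sequences `b = (b_1, …, b_r)` of sum `n` with
`b_1 ≥ 2`, `b_k > b_1 + … + b_(k-1)` for all `k`, and `b_r ≥ B`, are linearly independent.
(2) `(2 ⌊n / (2 r + 2)⌋ + 3 - 2^(r+1))^(r-1) ≤ 2^(r(r-1)/2) (r-1)! dim L_(r,n)` (truncated subtraction). -/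
theorem result (r n : ℕ) (hr : 2 ≤ r) :
    (∀ B : ℕ, B ≤ n → r * (2 * (n - B) + 1) < 2 * B → LinearIndependent ℚ
      (fun b : {b : List ℕ // b.length = r ∧ b.sum = n ∧ (∀ x ∈ b, 2 ≤ x) ∧
        (∀ (u : List ℕ) (β : ℕ) (v : List ℕ), b = u ++ β :: v → u.sum < β) ∧
        ∀ (u : List ℕ) (β : ℕ), b = u ++ [β] → B ≤ β} => bracket b.1)) ∧
    (2 * (n / (2 * (r + 1))) + 3 - 2 ^ (r + 1)) ^ (r - 1) ≤
      2 ^ (r * (r - 1) / 2) * (r - 1).factorial * Module.finrank ℚ (L r n) := by
  constructor
  · intro B hBn hB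
    obtain ⟨d, rfl⟩ : ∃ d, r = d + 2 := ⟨r - 2, by omega⟩
    classical
    rw [linearIndependent_iff']
    intro s g hg i hi
    set lam : List ℕ → ℚ := fun b => if h : b.length = d + 2 ∧ b.sum = n ∧ (∀ x ∈ b, 2 ≤ x) ∧
        (∀ (u : List ℕ) (β : ℕ) (v : List ℕ), b = u ++ β :: v → u.sum < β) ∧
        ∀ (u : List ℕ) (β : ℕ), b = u ++ [β] → B ≤ β then g ⟨b, h⟩ else 0 with hlam
    have hne : ∀ b : List ℕ, b.length = d + 2 → b ≠ [] := by
      rintro b h rfl
      simp at h
    have h0 := Pool.Agent.N568.BK.indepZ d n B (s.image Subtype.val) lam (by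
      intro b hb
      rw [mem_image] at hb
      obtain ⟨b', -, rfl⟩ := hb
      exact ⟨b'.2.1, b'.2.2.1, b'.2.2.2.2.1, b'.2.2.2.1⟩) (by
      intro b hb
      rw [mem_image] at hb
      obtain ⟨b', -, rfl⟩ := hb
      exact b'.2.2.2.2.2 _ _ (Pool.Agent.N568.BK.split (hne b'.1 b'.2.1))) hBn hB (by
      intro y
      have h1 := congrFun hg y
      rw [sum_image (fun x _ y _ h => Subtype.ext h)]
      rw [Finset.sum_apply] at h1
      simp only [Pi.smul_apply, smul_eq_mul, Pi.zero_apply] at h1
      refine Eq.trans (sum_congr rfl fun b _ => ?_) h1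
      simp only [hlam]
      rw [dif_pos b.2]
      congr 1
      show Pool.Agent.N568.BK.Z (Pool.Agent.N568.BK.la b.1) b.1.dropLast y = bracket b.1 y
      rw [bracket_eq]
      conv_rhs => rw [Pool.Agent.N568.BK.split (hne b.1 b.2.1), Pool.Agent.N568.BK.brk_eq])
      i.1 (mem_image_of_mem _ hi)
    simp only [hlam] at h0
    rw [dif_pos i.2] at h0
    exact h0
  · have h := Pool.Agent.N568.BK.main r n hr
    have hL : L r n = Pool.Agent.N568.BK.Sp r n := by
      unfold L Pool.Agent.N568.BK.Sp
      simp only [bracket_eq]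
    rw [hL]
    exact h

end Pool.Agent.Results.MP_cbe134_nt.GeneratorsInEveryDepth
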