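import Pool.Agent.N760.SC.B
import Pool.Agent.Results.MP_cbe134_nt.ManyVariables

/-!
# MP_cbe134_nt: the depth graded space at the values of arithmetic functions

A pattern in `k` variables is a list of letters `b + u_1 s_1 + ... + u_k s_k`; at a tuple `s` of natural numbers it gives an
index. The first letters may be constant. Let `Λ` be a finite set of admissible patterns of the same weight and of depth at
most `r`. We consider the relations `∑ c_w ζ(w(s)) = 0`, `w ∈ Λ`, with integers `c_w` of absolute value at most `C ^ T`, where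
`T` is the size of `s`: the relations of exponential height between the classes of the values of depth `r` in
`Fil_r / Fil_{r - 1}`.

Let `F_1, ..., F_k` be positive multiplicative functions of at most polynomial growth with `F_i p ≤ M p` for the large primes
`p` and different values at different large primes, for example Euler's function or the sum of the divisors. For all large `N`
and all tuples `m` in `[1, N] ^ k` but at most `N ^ k / (log N) ^ U` of them the following holds for ALL the tuples `s` of
natural numbers near the tuple of the values, `|s_i - F_i(m_i)| ≤ F_i(m_i) ^ θ`, in a cone `T ≤ s_i ≤ κ T` (`k θ < 1`): every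
such relation splits: its part of depth `r` is a combination `∑ ρ(u, v) (u ⧢ v)` of shuffles of constant indices `u` and
patterns `v` whose first letter is not constant, where for every `v` the number `∑_u ρ(u, v) ζ(u)` is in the span of the
values of the same weight and of smaller depth. If the patterns of depth `r` have at most one constant letter in front then
`c_w = 0` for all `w` of depth `r` (part 3 of `ManyVariables`).

The tuples of the values of such functions form a thin set (for Euler's function, a set with about `X ^ k / (log X) ^ k`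
elements up to `X`, up to smaller factors) and they are taken with very large multiplicities. So this does not follow from
the number of the exceptional tuples (`ManyVariables`: at most `K N ^ (k - 1)` in `[N, κ N] ^ k`). The tool for the values of
multiplicative functions is `Pool.Agent.N760.SC` (helper760).
-/

set_option autoImplicit false

namespace Pool.Agent.Results.MP_cbe134_nt.MultiplicativeValues

open Pool.Agent.N733.TG (LM lm_totient lm_sigma)
open Pool.Agent.Results.MP_cbe134_nt.ManyVariables (mzv Letter index AdmissiblePattern Splits exceptional constantPart)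

/-- Every relation between the multiple zeta values of the patterns `w ∈ Λ` at the tuple `s` with integers `c_w` of absolute
value at most `H` splits; and `c_w = 0` for all `w` of depth `r` if the patterns of depth `r` have at most one constant letter
in front. -/
def AllSplit {k : ℕ} (Λ : Finset (List (Letter k))) (r : ℕ) (S : Letter k) (H : ℝ) (s : Fin k → ℕ) : Prop :=
  ∀ c : List (Letter k) → ℤ, (∀ w, w ∉ Λ → c w = 0) → (∀ w ∈ Λ, |(c w : ℝ)| ≤ H) →
    ∑ w ∈ Λ, (c w : ℝ) * mzv (index s w) = 0 → Splits Λ r S c ∧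
      ((∀ w ∈ Λ, w.length = r → (constantPart w).length ≤ 1) → ∀ w, w.length = r → c w = 0)

lemma allSplit_mono {k : ℕ} (Λ : Finset (List (Letter k))) (r : ℕ) (S : Letter k) {H H' : ℝ} (h : H ≤ H')
    (s : Fin k → ℕ) (hs : AllSplit Λ r S H' s) : AllSplit Λ r S H s :=
  fun c h1 h2 h3 => hs c h1 (fun w hw => (h2 w hw).trans h) h3

lemma pow_bound (C : ℝ) {N T : ℕ} (h : T ≤ 2 * N) : C ^ T ≤ ((max |C| 1) ^ 2) ^ N := by
  have h5 : (1 : ℝ) ≤ max |C| 1 := le_max_right _ _
  calc C ^ T ≤ |C ^ T| := le_abs_self _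
    _ = |C| ^ T := abs_pow C T
    _ ≤ (max |C| 1) ^ T := pow_le_pow_left₀ (abs_nonneg C) (le_max_left _ _) T
    _ ≤ (max |C| 1) ^ (2 * N) := pow_le_pow_right₀ h5 h
    _ = _ := pow_mul _ _ _

/-- Let `Λ` be a finite set of admissible patterns in `k ≥ 1` variables of the same weight `S` and of depth at most `r`, `κ` a
natural number, `C` a real number, `F_1, ..., F_k` functions with `LM`, `θ ≥ 0`, `k θ < 1`, and `U` a natural number. For all
large `N` and all but at most `N^k / (log N)^U` of the tuples `m` of integers in `[1, N]`: for ALL tuples `s` of natural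
numbers with `|s_i - F_i(m_i)| ≤ F_i(m_i)^θ` and all `T ≥ 1` with `T ≤ s_i ≤ κ T` for all `i`, every relation
`∑ c_w ζ(w(s)) = 0`, `w ∈ Λ`, with integers `c_w` of absolute value at most `C ^ T` splits, and `c_w = 0` for all `w` of depth
`r` if the patterns of depth `r` have at most one constant letter in front. Euler's function and the sum of the divisors
satisfy `LM`. -/
theorem result :
    (∀ {k : ℕ}, 1 ≤ k → ∀ (r : ℕ) (S : Letter k) (Λ : Finset (List (Letter k))), (∀ w ∈ Λ, AdmissiblePattern w) →
      (∀ w ∈ Λ, w.length ≤ r) → (∀ w ∈ Λ, w.sum = S) → ∀ (κ : ℕ) (C : ℝ) (F : Fin k → ℕ → ℕ), (∀ i, LM (F i)) →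
      ∀ θ : ℝ, 0 ≤ θ → k * θ < 1 → ∀ U : ℕ, ∃ N₀ : ℕ, ∀ N : ℕ, N₀ ≤ N →
      ({m : Fin k → ℕ | (∀ i, 1 ≤ m i ∧ m i ≤ N) ∧ ¬ ∀ (s : Fin k → ℕ) (T : ℕ), 1 ≤ T →
        (∀ i, T ≤ s i ∧ s i ≤ κ * T) → (∀ i, |(s i : ℝ) - F i (m i)| ≤ (F i (m i) : ℝ) ^ θ) →
          AllSplit Λ r S (C ^ T) s}.ncard : ℝ) ≤ (N : ℝ) ^ k / Real.log N ^ U) ∧
    LM Nat.totient ∧ LM (fun m => ∑ d ∈ m.divisors, d) := by
  refine ⟨fun {k} hk r S Λ hΛ hr hS κ C F hF θ hθ hθk U => ?_, lm_totient, lm_sigma⟩
  obtain ⟨hfew, -, hone⟩ := ManyVariables.result r S Λ hΛ hr hS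
  obtain ⟨K, hK⟩ := hfew (2 * κ)
  obtain ⟨N₁, hN₁⟩ := hK ((max |C| 1) ^ 2)
  have hex : ∀ (N : ℕ) (H : ℝ), {s : Fin k → ℕ | (∀ j, N ≤ s j ∧ s j ≤ (2 * κ) * N) ∧ ¬ AllSplit Λ r S H s} ⊆
      exceptional Λ r S (2 * κ) N H := by
    rintro N H s ⟨hs1, hs2⟩
    unfold AllSplit at hs2
    push Not at hs2
    obtain ⟨c, hP1, hP2, hP3, hP4⟩ := hs2
    refine ⟨hs1, c, hP1, hP2, hP3, fun hP => ?_⟩
    obtain ⟨h6, w, hw, hcw⟩ := hP4 hP
    exact hcw (hone h6 c hP w hw)
  have hfin : ∀ (N : ℕ) (H : ℝ), (exceptional Λ r S (2 * κ) N H).Finite := by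
    intro N H
    refine (Set.Finite.pi (fun _ : Fin k => Set.finite_Iic (2 * κ * N))).subset ?_
    intro s hs j _
    exact (hs.1 j).2
  obtain ⟨N₀, hN₀⟩ := Pool.Agent.N760.SC.keep_scales hk κ (fun T s => ¬ AllSplit Λ r S (C ^ T) s)
    (fun N s => ¬ AllSplit Λ r S (((max |C| 1) ^ 2) ^ N) s)
    (fun N T s h1 h2 h3 h4 => h3 (allSplit_mono Λ r S (pow_bound C h2.le) s h4))
    ⟨K, N₁, fun N hN => (Set.ncard_le_ncard (hex N _) (hfin N _)).trans (hN₁ N hN)⟩ hF hθ hθk U
  refine ⟨N₀, fun N hN => le_trans (le_of_eq ?_) (hN₀ N hN)⟩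
  simp only [not_not]

end Pool.Agent.Results.MP_cbe134_nt.MultiplicativeValues
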